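import Pool.Agent.Bicomp.Transfer

/-!
Q1 of MP_7c1678_co: every bicompatible permutation statistic is equivalent to one of the descent
set, the peak set, the valley set and the trivial statistic.
-/

universe u

namespace Pool.Agent.Results.MP_7c1678_co.BicompatibleClassification

open Pool.Agent.Bicomp

/-- Every bicompatible permutation statistic is equivalent to `Des`, `Pk`, `Val` or `triv`. -/
theorem result : ∀ {α : Type u} (st : List ℕ → α), IsStatistic st → Bicompatible st →
    Equivalent st Des ∨ Equivalent st Pk ∨ Equivalent st Val ∨ Equivalent st triv := by
  intro α st hst hbi
  exact classification hst hbi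

end Pool.Agent.Results.MP_7c1678_co.BicompatibleClassification
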